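import Pool.Agent.Helper8.CO.Aa3

/-!
# Almost all integers: all the neighbours have the same height

`First ρ F t n`: `t` is the first time at which the orbit of `n` is in `F`. If `F` is bounded above, `c < 1 / 2`, then for almost all `n` and all `h`, `ρ ∣ h`,
`|h| ≤ exp ((log n) ^ c)`, the first times of `n + h` and `n` are equal (or both do not exist).
-/

set_option autoImplicit false

namespace Pool.Agent.Helper85.ST

open Pool.Agent.Helper68.Moeller Pool.Agent.Helper8 Pool.Agent.Helper8.ND Pool.Agent.Helper8.CO Pool.Agent.Helper28 Filter Topology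

variable {ρ : ℤ}

/-- The first time in `F`. -/
def First (ρ : ℤ) (F : Set ℤ) (t : ℕ) (n : ℤ) : Prop :=
  (T 2 3 (fun _ => ρ))^[t] n ∈ F ∧ ∀ i < t, (T 2 3 (fun _ => ρ))^[i] n ∉ F

private theorem first85 {F : Set ℤ} {k : ℕ} {n n' : ℤ} (h : (T 2 3 (fun _ => ρ))^[k] n = (T 2 3 (fun _ => ρ))^[k] n')
    (h1 : ∀ i ≤ k, (T 2 3 (fun _ => ρ))^[i] n ∉ F) (h2 : ∀ i ≤ k, (T 2 3 (fun _ => ρ))^[i] n' ∉ F) (t : ℕ) :
    First ρ F t n → First ρ F t n' := by
  rintro ⟨h3, h4⟩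
  have hkt : k < t := by
    by_contra hcon
    exact h1 t (not_lt.1 hcon) h3
  have h5 : ∀ i, k ≤ i → (T 2 3 (fun _ => ρ))^[i] n = (T 2 3 (fun _ => ρ))^[i] n' := by
    intro i hi
    obtain ⟨j, rfl⟩ := Nat.exists_eq_add_of_le hi
    rw [add_comm k j, Function.iterate_add_apply, Function.iterate_add_apply, h]
  refine ⟨by rwa [← h5 t hkt.le], fun i hi => ?_⟩
  rcases le_or_gt i k with hik | hik
  · exact h2 i hik
  · rw [← h5 i hik.le]
    exact h4 i hi

private theorem bad85 (x : ℝ) (P : ℤ → Prop) :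
    ({n : ℤ | 0 < n ∧ (n : ℝ) ≤ x ∧ P n}).Finite := by
  refine (Set.finite_Icc (1 : ℤ) ⌊x⌋).subset ?_
  rintro n ⟨h1, h2, -⟩
  exact ⟨h1, Int.le_floor.2 h2⟩

theorem heights (hρ : Odd ρ) {c : ℝ} (hc : c < 1 / 2) {F : Set ℤ} {B : ℝ} (hB : 0 ≤ B) (hF : ∀ a ∈ F, (a : ℝ) ≤ B) :
    Tendsto (fun x : ℝ => cN {n : ℤ | ∀ h : ℤ, ρ ∣ h → |(h : ℝ)| ≤ Real.exp (Real.log n ^ c) →
      ∀ t : ℕ, First ρ F t (n + h) ↔ First ρ F t n} x / x) atTop (𝓝 1) := by
  set A : Set ℤ := {n : ℤ | ∀ h : ℤ, ρ ∣ h → |(h : ℝ)| ≤ Real.exp (Real.log n ^ c) →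
      ∀ t : ℕ, First ρ F t (n + h) ↔ First ρ F t n} with hA
  have h1 : Tendsto (fun x : ℝ => cN (Set.univ : Set ℤ) x / x) atTop (𝓝 1) :=
    POSB.cN_univ_tendsto fun n _ => Set.mem_univ n
  have h2 : Tendsto (fun x : ℝ => cN Aᶜ x / x) atTop (𝓝 0) := by
    rw [Metric.tendsto_atTop]
    intro ε hε
    obtain ⟨c', hc'⟩ : ∃ c' : ℝ, c' = max c (1 / 4) := ⟨_, rfl⟩
    have hc'0 : 0 < c' := by rw [hc']; exact lt_max_of_lt_right (by norm_num)
    have hc'2 : c' < 1 / 2 := by rw [hc']; exact max_lt hc (by norm_num)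
    have hcc' : c ≤ c' := by rw [hc']; exact le_max_left _ _
    obtain ⟨X, hX⟩ := win2 hρ (c := c') hc'0 hc'2 (ε := ε / 4) (by positivity)
    obtain ⟨K, hK⟩ : ∃ K : ℝ, K = |(ρ : ℝ)| + B + 1 := ⟨_, rfl⟩
    have hK1 : 1 ≤ K := by
      rw [hK]
      have := abs_nonneg (ρ : ℝ)
      linarith
    -- the sizes
    have hev1 : ∀ᶠ x : ℝ in atTop, Real.exp (Real.log x ^ c') ≤ Real.sqrt x := by
      have h3 : ∀ᶠ y : ℝ in atTop, y ^ c' ≤ y / 2 := by
        have h4 : Tendsto (fun y : ℝ => y ^ (1 - c')) atTop atTop := tendsto_rpow_atTop (by linarith)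
        filter_upwards [h4.eventually_ge_atTop 2, eventually_gt_atTop 0] with y hy hy0
        have h5 : y ^ c' * y ^ (1 - c') = y := by
          rw [← Real.rpow_add hy0]
          have : c' + (1 - c') = 1 := by ring
          rw [this, Real.rpow_one]
        have h6 : 0 < y ^ c' := Real.rpow_pos_of_pos hy0 _
        nlinarith
      filter_upwards [Real.tendsto_log_atTop.eventually h3, eventually_gt_atTop 0] with x hx hx0
      rw [Real.sqrt_eq_rpow, Real.rpow_def_of_pos hx0]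
      exact Real.exp_le_exp.2 (by linarith)
    have hev2 : ∀ᶠ x : ℝ in atTop, (K + 1) * Real.sqrt x ≤ ε / 4 * x := by
      have h3 : Tendsto (fun x : ℝ => Real.sqrt x) atTop atTop := Real.tendsto_sqrt_atTop
      filter_upwards [h3.eventually_ge_atTop ((K + 1) * (4 / ε)), eventually_gt_atTop 0] with x hx hx0
      have h4 : Real.sqrt x * Real.sqrt x = x := Real.mul_self_sqrt hx0.le
      have h5 : (K + 1) ≤ ε / 4 * Real.sqrt x := by
        have h6 : ε / 4 * ((K + 1) * (4 / ε)) = K + 1 := by field_simp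
        calc K + 1 = ε / 4 * ((K + 1) * (4 / ε)) := h6.symm
          _ ≤ ε / 4 * Real.sqrt x := mul_le_mul_of_nonneg_left hx (by positivity)
      calc (K + 1) * Real.sqrt x ≤ ε / 4 * Real.sqrt x * Real.sqrt x :=
            mul_le_mul_of_nonneg_right h5 (Real.sqrt_nonneg x)
        _ = ε / 4 * x := by rw [mul_assoc, h4]
    obtain ⟨Y, hY⟩ := eventually_atTop.1 ((hev1.and hev2).and ((eventually_ge_atTop X).and (eventually_ge_atTop (max 9 (16 / ε)))))
    refine ⟨Y, fun x hx => ?_⟩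
    obtain ⟨⟨hw, hsm⟩, hxX, hx9⟩ := hY x hx
    have hx1 : (9 : ℝ) ≤ x := (le_max_left _ _).trans hx9
    have hx4 : 16 / ε ≤ x := (le_max_right _ _).trans hx9
    have hx0 : 0 < x := by linarith
    have hs3 : (3 : ℝ) ≤ Real.sqrt x := by
      rw [show (3 : ℝ) = Real.sqrt 9 by rw [show (9 : ℝ) = 3 ^ 2 by norm_num, Real.sqrt_sq (by norm_num)]]
      exact Real.sqrt_le_sqrt hx1
    have h3 := hX x hxX
    have hk2 : (2 : ℝ) ^ kk x ≤ Real.sqrt x := two_pow_kk_le (by linarith)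
    have hsub : {n : ℤ | n ∈ Aᶜ ∧ 0 < n ∧ (n : ℝ) ≤ x} ⊆
        {n : ℤ | 0 < n ∧ (n : ℝ) ≤ x ∧ ∃ h : ℤ, ρ ∣ h ∧ |(h : ℝ)| ≤ Real.exp (Real.log x ^ c') ∧
          ¬ MM ρ (kk x) 0 n (n + h)} ∪ ((Finset.Icc (1 : ℤ) ⌊(K + 1) * Real.sqrt x⌋ : Finset ℤ) : Set ℤ) := by
      rintro n ⟨hn, hn0, hnx⟩
      rcases le_or_gt (n : ℝ) ((K + 1) * Real.sqrt x) with h | h
      · right
        rw [Finset.mem_coe, Finset.mem_Icc]
        exact ⟨by omega, Int.le_floor.2 h⟩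
      · left
        have hn3 : (3 : ℝ) ≤ n := by nlinarith
        have hwin : ∀ h : ℤ, |(h : ℝ)| ≤ Real.exp (Real.log n ^ c) → |(h : ℝ)| ≤ Real.exp (Real.log x ^ c') := by
          intro k hk
          refine hk.trans (Real.exp_le_exp.2 ?_)
          have hl1 : 1 ≤ Real.log n :=
            one_le_log_three.trans (Real.log_le_log (by norm_num) hn3)
          have hl2 : Real.log n ≤ Real.log x := Real.log_le_log (by linarith) hnx
          calc Real.log n ^ c ≤ Real.log n ^ c' := Real.rpow_le_rpow_of_exponent_le hl1 hcc'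
            _ ≤ Real.log x ^ c' := Real.rpow_le_rpow (by linarith) hl2 hc'0.le
        refine ⟨hn0, hnx, ?_⟩
        by_contra hcon
        apply hn
        intro k hk hkl t
        have hkx := hwin k hkl
        have hM : MM ρ (kk x) 0 n (n + k) := by
          by_contra hno
          exact hcon ⟨k, hk, hkx, hno⟩
        have hbig : ∀ n' : ℤ, K * Real.sqrt x ≤ n' → ∀ i ≤ kk x, (T 2 3 (fun _ => ρ))^[i] n' ∉ F := by
          intro n' hn' i hi hmem
          have h5 := orb_gt hρ hB (k := kk x) (n := n') (by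
            rw [← hK]
            refine le_trans ?_ hn'
            rw [mul_comm]
            exact mul_le_mul_of_nonneg_left hk2 (by linarith)) hi
          exact absurd (hF _ hmem) (not_le.2 h5)
        have hn1 : K * Real.sqrt x ≤ n := by nlinarith
        have hn2 : K * Real.sqrt x ≤ (n + k : ℤ) := by
          push_cast
          have h6 := (abs_le.1 (hkx.trans hw)).1
          nlinarith
        exact ⟨first85 hM.1.symm (hbig _ hn2) (hbig _ hn1) t, first85 hM.1 (hbig _ hn1) (hbig _ hn2) t⟩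
    have hfin := bad85 x (fun n => ∃ h : ℤ, ρ ∣ h ∧
        |(h : ℝ)| ≤ Real.exp (Real.log x ^ c') ∧ ¬ MM ρ (kk x) 0 n (n + h))
    have h4 := Set.ncard_le_ncard hsub (hfin.union (Finset.finite_toSet _))
    have h5 := Set.ncard_union_le {n : ℤ | 0 < n ∧ (n : ℝ) ≤ x ∧ ∃ h : ℤ, ρ ∣ h ∧
        |(h : ℝ)| ≤ Real.exp (Real.log x ^ c') ∧ ¬ MM ρ (kk x) 0 n (n + h)}
        ((Finset.Icc (1 : ℤ) ⌊(K + 1) * Real.sqrt x⌋ : Finset ℤ) : Set ℤ)
    rw [Set.ncard_coe_finset] at h5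
    have h6 : ((Finset.Icc (1 : ℤ) ⌊(K + 1) * Real.sqrt x⌋).card : ℝ) ≤ (K + 1) * Real.sqrt x := by
      rw [Int.card_Icc, add_sub_cancel_right]
      have h7 : 0 ≤ ⌊(K + 1) * Real.sqrt x⌋ := Int.floor_nonneg.2 (by positivity)
      have h8 : ((⌊(K + 1) * Real.sqrt x⌋.toNat : ℕ) : ℝ) = ((⌊(K + 1) * Real.sqrt x⌋ : ℤ) : ℝ) := by
        exact_mod_cast Int.toNat_of_nonneg h7
      rw [h8]
      exact Int.floor_le _
    have h7 : cN Aᶜ x ≤ ε / 4 * x + ε / 4 * x := by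
      have h8 : (({n : ℤ | n ∈ Aᶜ ∧ 0 < n ∧ (n : ℝ) ≤ x}.ncard : ℕ) : ℝ) ≤
          ({n : ℤ | 0 < n ∧ (n : ℝ) ≤ x ∧ ∃ h : ℤ, ρ ∣ h ∧
            |(h : ℝ)| ≤ Real.exp (Real.log x ^ c') ∧ ¬ MM ρ (kk x) 0 n (n + h)}.ncard : ℝ) +
            ((Finset.Icc (1 : ℤ) ⌊(K + 1) * Real.sqrt x⌋).card : ℝ) := by
        exact_mod_cast h4.trans h5
      exact h8.trans (by linarith)
    have h9 : (0 : ℝ) ≤ cN Aᶜ x := by unfold cN; positivity
    rw [Real.dist_eq, sub_zero, abs_of_nonneg (div_nonneg h9 hx0.le), div_lt_iff₀ hx0]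
    nlinarith
  have h3 : (fun x : ℝ => cN A x / x) =
      fun x : ℝ => cN (Set.univ : Set ℤ) x / x - cN Aᶜ x / x := by
    ext x
    rw [← Set.union_compl_self A, POSB.cN_union disjoint_compl_right]
    ring
  rw [h3]
  simpa using h1.sub h2

end Pool.Agent.Helper85.ST
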